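import Pool.Agent.Lib.MP_efa98f_al.Three77.FamP
import Pool.Agent.Lib.MP_efa98f_al.Three77.Ext

/-!
# MP_efa98f_al: rows `(g₃₂, g₃₃)` that five column operations bring to `(±1, *)`
-/

open scoped Pointwise

namespace Pool.Agent.Lib.MP_efa98f_al.Fam77

open Matrix

/-- If rows `2, 3` of two elements agree, the elements differ by a row element on the left. -/
theorem row_auto (g m : Matrix.SpecialLinearGroup (Fin 3) ℤ)
    (h1 : ∀ j, g.1 1 j = m.1 1 j) (h2 : ∀ j, g.1 2 j = m.1 2 j) :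
    ∃ r1 r2 : ℤ, g = Rm r1 r2 * m := by
  obtain ⟨K, hK⟩ : ∃ K, K = g * m⁻¹ := ⟨_, rfl⟩
  have hmm : m.1 * (m⁻¹).1 = 1 := by
    have := congrArg Subtype.val (mul_inv_cancel m)
    exact this
  have hKv : K.1 = g.1 * (m⁻¹).1 := by rw [hK]; rfl
  have e1 : ∀ j, K.1 1 j = (1 : Matrix (Fin 3) (Fin 3) ℤ) 1 j := by
    intro j
    rw [hKv, ← hmm, Matrix.mul_apply, Matrix.mul_apply]
    exact Finset.sum_congr rfl fun x _ => by rw [h1]
  have e2 : ∀ j, K.1 2 j = (1 : Matrix (Fin 3) (Fin 3) ℤ) 2 j := by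
    intro j
    rw [hKv, ← hmm, Matrix.mul_apply, Matrix.mul_apply]
    exact Finset.sum_congr rfl fun x _ => by rw [h2]
  have a10 : K.1 1 0 = 0 := by rw [e1]; rfl
  have a11 : K.1 1 1 = 1 := by rw [e1]; rfl
  have a12 : K.1 1 2 = 0 := by rw [e1]; rfl
  have a20 : K.1 2 0 = 0 := by rw [e2]; rfl
  have a21 : K.1 2 1 = 0 := by rw [e2]; rfl
  have a22 : K.1 2 2 = 1 := by rw [e2]; rfl
  have hdet := K.2
  rw [Matrix.det_fin_three, a10, a11, a12, a20, a21, a22] at hdet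
  have a00 : K.1 0 0 = 1 := by linarith
  refine ⟨K.1 0 1, K.1 0 2, ?_⟩
  have hKR : K = Rm (K.1 0 1) (K.1 0 2) := by
    apply Subtype.ext
    unfold Rm
    ext i j
    fin_cases i <;> fin_cases j <;> simp [a00, a10, a11, a12, a20, a21, a22]
  rw [← hKR, hK]
  group

/-- The base matrix with lower right block `[0, -s δ; s, D]`. -/
theorem base_P {x y t e s δ D : ℤ} (hN : x ^ 2 + t * x * y + δ * y ^ 2 = e) (he : e ^ 2 = 1)
    (hs : s ^ 2 = 1) :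
    ∃ c11 c12 r21 r22 r31 r32 T p q : ℤ,
      (Cm c11 c12 * Rm r21 r22 * Cm x (s * y) * Rm r31 r32 * Um T).1 =
      !![0, p, q; x, 0, -s * δ; s * y, s, D] := by
  have heN : e * (x ^ 2 + t * x * y + δ * y ^ 2) = 1 := by rw [hN]; linear_combination he
  obtain ⟨ε, hε⟩ : ∃ ε, ε = s * e := ⟨_, rfl⟩
  obtain ⟨c11, hc11⟩ : ∃ c, c = y * δ := ⟨_, rfl⟩
  obtain ⟨c12, hc12⟩ : ∃ c, c = -s * (x + y * t) := ⟨_, rfl⟩
  obtain ⟨r21, hr21⟩ : ∃ r, r = ε * (-s * y - s * x) := ⟨_, rfl⟩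
  obtain ⟨r22, hr22⟩ : ∃ r, r = ε * (-(t - 1) * x - y * δ) := ⟨_, rfl⟩
  obtain ⟨r31, hr31⟩ : ∃ r, r = ε * (δ * s * y - s * (x + y * t)) := ⟨_, rfl⟩
  obtain ⟨r32, hr32⟩ : ∃ r, r = ε * (-δ * x - y * δ) := ⟨_, rfl⟩
  have hr : r21 * x + r22 * (s * y) = -1 := by
    rw [hr21, hr22, hε]
    linear_combination (-s ^ 2) * heN - hs
  have hE11 : 1 + c11 * r21 + x * r31 = 0 := by
    rw [hr21, hr31, hc11, hε]
    linear_combination (-1) * heN - e * (x ^ 2 + t * x * y + δ * y ^ 2) * hs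
  have hE12 : c11 * r22 + x * r32 = -s * δ := by
    rw [hr22, hr32, hc11, hε]
    linear_combination (-s * δ) * heN
  have hE21 : c12 * r21 + s * y * r31 = s := by
    rw [hr21, hr31, hc12, hε]
    linear_combination (s ^ 3) * heN + s * hs
  have hE22 : 1 + c12 * r22 + s * y * r32 = t := by
    rw [hr22, hr32, hc12, hε]
    linear_combination (t - 1) * s ^ 2 * heN + (t - 1) * hs
  have hQ := Q_mat (α := c11) (γ := c12) (r31 := r31) (r32 := r32) hr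
  rw [hE11, hE12, hE21, hE22] at hQ
  refine ⟨c11, c12, r21, r22, r31, r32, s * (D - t), r21, r22 + s * (D - t) * r21, ?_⟩
  show (Cm c11 c12 * Rm r21 r22 * Cm x (s * y) * Rm r31 r32).1 * (Um (s * (D - t))).1 = _
  rw [hQ]
  unfold Um
  ext i j
  fin_cases i <;> fin_cases j <;>
    simp only [Matrix.mul_apply, Fin.sum_univ_three, Matrix.of_apply, Matrix.cons_val',
      Matrix.cons_val_zero, Matrix.cons_val_one, Matrix.cons_val, Matrix.cons_val_fin_one,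
      Fin.zero_eta, Fin.mk_one, Fin.isValue, Fin.reduceFinMk]
  · ring
  · ring
  · ring
  · ring
  · ring
  · ring
  · ring
  · ring
  · linear_combination (D - t) * hs

theorem um_mem (m : ℤ) : Um m ∈ Ext77.upU := by
  have h := inU_RU 0 0 m
  have e : Rm 0 0 * Um m = Um m := by
    have : Rm 0 0 = 1 := by
      apply Subtype.ext
      unfold Rm
      ext i j
      fin_cases i <;> fin_cases j <;> rfl
    rw [this, one_mul]
  rw [e] at h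
  exact h

theorem collect_mem (p1 q1 p2 q2 p3 q3 p4 q4 p5 q5 p6 q6 s1 s2 s3 s4 s5 s6 : ℤ) :
    Rm p1 q1 * (Cm p2 q2 * Rm p3 q3 * Cm p4 q4 * Rm p5 q5 *
      (Um s1 * Lm s2 * Um s3 * Lm s4 * Um s5 * Lm s6)) * Cm p6 q6 ∈ Ext77.S := by
  obtain ⟨u1, l1, u2, l2, u3, l3, h1, h2, h3, h4, h5, h6, h7⟩ :=
    collect p1 q1 p2 q2 p3 q3 p4 q4 p5 q5 p6 q6 s1 s2 s3 s4 s5 s6
  rw [← h7]
  exact Set.mul_mem_mul (Set.mul_mem_mul (Set.mul_mem_mul (Set.mul_mem_mul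
    (Set.mul_mem_mul h1 h2) h3) h4) h5) h6

/-- the pair `(p, q)` is brought to a pair with first entry `±1` by five operations -/
def FiveStep (p q : ℤ) : Prop :=
  ∃ a b c d e p1 q1 p2 q2 p3 : ℤ, p1 = p + a * q ∧ q1 = q + b * p1 ∧ p2 = p1 + c * q1 ∧
    q2 = q1 + d * p2 ∧ p3 = p2 + e * q2 ∧ (p3 = 1 ∨ p3 = -1)

theorem five
    (H : ∀ c d : ℤ, IsCoprime c d → ∃ t x y : ℤ,
      (x ^ 2 + t * x * y + d * y ^ 2 = 1 ∨ x ^ 2 + t * x * y + d * y ^ 2 = -1) ∧ d ∣ x - c)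
    (g : Matrix.SpecialLinearGroup (Fin 3) ℤ) (h : FiveStep (g.1 2 1) (g.1 2 2)) :
    g ∈ Ext77.S := by
  obtain ⟨a, b, c', d', k5, p1, q1, p2, q2, s, hp1, hq1, hp2, hq2, hs0, hs1⟩ := h
  have hs : s ^ 2 = 1 := by rcases hs1 with h | h <;> rw [h] <;> norm_num
  obtain ⟨z, hz⟩ : ∃ z, z = Lm a * Um b * Lm c' * Um d' * Lm k5 := ⟨_, rfl⟩
  -- the action of the five letters on a matrix with given entries
  have hact : ∀ r0 r1 r2 : ℤ, ∀ i : Fin 3, g.1 i 0 = r0 → g.1 i 1 = r1 → g.1 i 2 = r2 →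
      (g * z).1 i 0 = r0 ∧
      (g * z).1 i 1 = r1 + a * r2 + c' * (r2 + b * (r1 + a * r2)) +
        k5 * (r2 + b * (r1 + a * r2) + d' * (r1 + a * r2 + c' * (r2 + b * (r1 + a * r2)))) := by
    intro r0 r1 r2 i h0 h1 h2
    have e : (g * z).1 = g.1 * ((Lm a).1 * (Um b).1 * (Lm c').1 * (Um d').1 * (Lm k5).1) := by
      rw [hz]; rfl
    rw [e]
    unfold Lm Um
    constructor
    · simp [Matrix.mul_apply, Fin.sum_univ_three, h0]
    · simp [Matrix.mul_apply, Fin.sum_univ_three, h1, h2]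
      ring
  obtain ⟨G, hG⟩ : ∃ G, G = g * z := ⟨_, rfl⟩
  have hG21 : G.1 2 1 = s := by
    rw [hG, (hact _ _ _ 2 rfl rfl rfl).2, hs0, hq2, hp2, hq1, hp1]
  obtain ⟨m, hm⟩ : ∃ m, m = -s * G.1 1 1 := ⟨_, rfl⟩
  obtain ⟨G1, hG1⟩ : ∃ G1, G1 = Um m * G := ⟨_, rfl⟩
  obtain ⟨D, hD⟩ : ∃ D, D = G.1 2 2 := ⟨_, rfl⟩
  obtain ⟨r, hr⟩ : ∃ r, r = G.1 2 0 := ⟨_, rfl⟩
  obtain ⟨c, hc⟩ : ∃ c, c = G.1 1 0 + m * r := ⟨_, rfl⟩
  obtain ⟨δ, hδ⟩ : ∃ δ, δ = -s * (G.1 1 2 + m * D) := ⟨_, rfl⟩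
  have hrow : ∀ j, G1.1 1 j = G.1 1 j + m * G.1 2 j ∧ G1.1 2 j = G.1 2 j ∧
      G1.1 0 j = G.1 0 j := by
    intro j
    have e : G1.1 = (Um m).1 * G.1 := by rw [hG1]; rfl
    rw [e]
    unfold Um
    refine ⟨?_, ?_, ?_⟩ <;> simp [Matrix.mul_apply, Fin.sum_univ_three]
  have e10 : G1.1 1 0 = c := by rw [(hrow 0).1, hc, hr]
  have e11 : G1.1 1 1 = 0 := by rw [(hrow 1).1, hG21, hm]; linear_combination (-G.1 1 1) * hs
  have e12 : G1.1 1 2 = -s * δ := by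
    rw [(hrow 2).1, hδ, ← hD]
    linear_combination (-(G.1 1 2 + m * D)) * hs
  have e20 : G1.1 2 0 = r := by rw [(hrow 0).2.1, hr]
  have e21 : G1.1 2 1 = s := by rw [(hrow 1).2.1, hG21]
  have e22 : G1.1 2 2 = D := by rw [(hrow 2).2.1, hD]
  have hcop : IsCoprime c δ := by
    have hdet := G1.2
    rw [Matrix.det_fin_three, e10, e11, e12, e20, e21, e22] at hdet
    refine ⟨-(G1.1 0 1) * D + G1.1 0 2 * s, G1.1 0 0 - G1.1 0 1 * s * r, ?_⟩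
    linear_combination hdet - G1.1 0 0 * δ * hs
  obtain ⟨t, x, y, hN, μ, hμ⟩ := H c δ hcop
  obtain ⟨e, he, hN'⟩ : ∃ e : ℤ, e ^ 2 = 1 ∧ x ^ 2 + t * x * y + δ * y ^ 2 = e := by
    rcases hN with h1 | h1
    · exact ⟨1, by norm_num, h1⟩
    · exact ⟨-1, by norm_num, h1⟩
  obtain ⟨c11, c12, r21, r22, r31, r32, T, p, q, hP⟩ := base_P (s := s) (D := D) hN' he hs
  obtain ⟨P, hPd⟩ : ∃ P, P = Cm c11 c12 * Rm r21 r22 * Cm x (s * y) * Rm r31 r32 * Um T :=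
    ⟨_, rfl⟩
  rw [← hPd] at hP
  obtain ⟨k1, hk1⟩ : ∃ k, k = s * r - y - D * μ := ⟨_, rfl⟩
  obtain ⟨k2, hk2⟩ : ∃ k, k = s * μ := ⟨_, rfl⟩
  have hPC : (P * Cm k1 k2).1 = P.1 * (Cm k1 k2).1 := rfl
  obtain ⟨ρ1, ρ2, hρ⟩ := row_auto G1 (P * Cm k1 k2) (by
    intro j
    rw [hPC, hP]
    unfold Cm
    fin_cases j
    · show G1.1 1 0 = _
      rw [e10]
      simp [Matrix.mul_apply, Fin.sum_univ_three]
      rw [hk2]
      linear_combination -hμ + δ * μ * hs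
    · show G1.1 1 1 = _
      rw [e11]
      simp [Matrix.mul_apply, Fin.sum_univ_three]
    · show G1.1 1 2 = _
      rw [e12]
      simp [Matrix.mul_apply, Fin.sum_univ_three]) (by
    intro j
    rw [hPC, hP]
    unfold Cm
    fin_cases j
    · show G1.1 2 0 = _
      rw [e20]
      simp [Matrix.mul_apply, Fin.sum_univ_three]
      rw [hk1, hk2]
      linear_combination (-r) * hs
    · show G1.1 2 1 = _
      rw [e21]
      simp [Matrix.mul_apply, Fin.sum_univ_three]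
    · show G1.1 2 2 = _
      rw [e22]
      simp [Matrix.mul_apply, Fin.sum_univ_three])
  have hgz : g = Um (-m) * (Rm ρ1 ρ2 * (P * Cm k1 k2)) * z⁻¹ := by
    rw [← hρ, hG1, hG, Um_neg]
    group
  -- move the column element through the letters
  have hmv : ∃ k1' k2' : ℤ, Cm k1 k2 * z⁻¹ =
      (Lm (-k5) * Um (-d') * Lm (-c') * Um (-b) * Lm (-a)) * Cm k1' k2' := by
    have hzi : z⁻¹ = Lm (-k5) * Um (-d') * Lm (-c') * Um (-b) * Lm (-a) := by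
      rw [hz, Lm_neg, Lm_neg, Lm_neg, Um_neg, Um_neg]
      group
    have mL : ∀ p q s : ℤ, ∃ p' q', Cm p q * Lm s = Lm s * Cm p' q' := fun p q s =>
      ⟨_, _, Cm_Lm p q s⟩
    have mU : ∀ p q s : ℤ, ∃ p' q', Cm p q * Um s = Um s * Cm p' q' := fun p q s =>
      ⟨_, _, Cm_Um p q s⟩
    obtain ⟨x1, y1, f1⟩ := mL k1 k2 (-k5)
    obtain ⟨x2, y2, f2⟩ := mU x1 y1 (-d')
    obtain ⟨x3, y3, f3⟩ := mL x2 y2 (-c')
    obtain ⟨x4, y4, f4⟩ := mU x3 y3 (-b)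
    obtain ⟨x5, y5, f5⟩ := mL x4 y4 (-a)
    refine ⟨x5, y5, ?_⟩
    rw [hzi]
    calc Cm k1 k2 * (Lm (-k5) * Um (-d') * Lm (-c') * Um (-b) * Lm (-a))
        = (Cm k1 k2 * Lm (-k5)) * Um (-d') * Lm (-c') * Um (-b) * Lm (-a) := by group
      _ = Lm (-k5) * (Cm x1 y1 * Um (-d')) * Lm (-c') * Um (-b) * Lm (-a) := by rw [f1]; group
      _ = Lm (-k5) * Um (-d') * (Cm x2 y2 * Lm (-c')) * Um (-b) * Lm (-a) := by rw [f2]; group
      _ = Lm (-k5) * Um (-d') * Lm (-c') * (Cm x3 y3 * Um (-b)) * Lm (-a) := by rw [f3]; group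
      _ = Lm (-k5) * Um (-d') * Lm (-c') * Um (-b) * (Cm x4 y4 * Lm (-a)) := by rw [f4]; group
      _ = _ := by rw [f5]; group
  obtain ⟨k1', k2', hmv⟩ := hmv
  have hfin : g = Um (-m) * (Rm ρ1 ρ2 * (Cm c11 c12 * Rm r21 r22 * Cm x (s * y) * Rm r31 r32 *
      (Um T * Lm (-k5) * Um (-d') * Lm (-c') * Um (-b) * Lm (-a))) * Cm k1' k2') * 1 := by
    calc g = Um (-m) * (Rm ρ1 ρ2 * (P * Cm k1 k2)) * z⁻¹ := hgz
      _ = Um (-m) * (Rm ρ1 ρ2 * P) * (Cm k1 k2 * z⁻¹) := by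
          simp only [_root_.mul_assoc]
      _ = _ := by
          rw [hmv, hPd]
          simp only [_root_.mul_assoc, _root_.mul_one]
  rw [hfin]
  refine Ext77.absorb (um_mem _) (collect_mem _ _ _ _ _ _ _ _ _ _ _ _ _ _ _ _ _ _) ?_
  refine ⟨?_, ?_⟩
  · intro i
    show (1 : Matrix (Fin 3) (Fin 3) ℤ) i i = 1
    exact Matrix.one_apply_eq i
  · intro i j hij
    show (1 : Matrix (Fin 3) (Fin 3) ℤ) i j = 0
    exact Matrix.one_apply_ne (ne_of_lt hij)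

end Pool.Agent.Lib.MP_efa98f_al.Fam77
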