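import Pool.Agent.Lib.MP_efa98f_al.Three77.Fam

/-!
# MP_efa98f_al: the special matrices of the family with class `x₀`
-/

namespace Pool.Agent.Lib.MP_efa98f_al.Fam77

open Matrix

theorem Um_neg (s : ℤ) : Um (-s) = (Um s)⁻¹ := by
  rw [eq_inv_iff_mul_eq_one]
  apply Subtype.ext
  show (Um (-s)).1 * (Um s).1 = 1
  unfold Um
  ext i j
  fin_cases i <;> fin_cases j <;> simp [Matrix.mul_apply, Fin.sum_univ_three]

theorem Lm_neg (s : ℤ) : Lm (-s) = (Lm s)⁻¹ := by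
  rw [eq_inv_iff_mul_eq_one]
  apply Subtype.ext
  show (Lm (-s)).1 * (Lm s).1 = 1
  unfold Lm
  ext i j
  fin_cases i <;> fin_cases j <;> simp [Matrix.mul_apply, Fin.sum_univ_three]

theorem Q_mat {α γ r21 r22 β δ r31 r32 : ℤ} (h : r21 * β + r22 * δ = -1) :
    (Cm α γ * Rm r21 r22 * Cm β δ * Rm r31 r32).1 =
      !![0, r21, r22; β, 1 + α * r21 + β * r31, α * r22 + β * r32;
        δ, γ * r21 + δ * r31, 1 + γ * r22 + δ * r32] := by
  have e1 : (Cm α γ).1 * (Rm r21 r22).1 =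
      !![1, r21, r22; α, 1 + α * r21, α * r22; γ, γ * r21, 1 + γ * r22] := by
    unfold Cm Rm
    ext i j
    fin_cases i <;> fin_cases j <;> simp [Matrix.mul_apply, Fin.sum_univ_three] <;> ring
  have e2 : (Cm β δ).1 * (Rm r31 r32).1 =
      !![1, r31, r32; β, 1 + β * r31, β * r32; δ, δ * r31, 1 + δ * r32] := by
    unfold Cm Rm
    ext i j
    fin_cases i <;> fin_cases j <;> simp [Matrix.mul_apply, Fin.sum_univ_three] <;> ring
  show (Cm α γ).1 * (Rm r21 r22).1 * (Cm β δ).1 * (Rm r31 r32).1 = _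
  rw [Matrix.mul_assoc, e1, e2]
  ext i j
  fin_cases i <;> fin_cases j <;>
    simp only [Matrix.mul_apply, Fin.sum_univ_three, Matrix.of_apply, Matrix.cons_val',
      Matrix.cons_val_zero, Matrix.cons_val_one, Matrix.cons_val, Matrix.cons_val_fin_one,
      Fin.zero_eta, Fin.mk_one, Fin.isValue, Fin.reduceFinMk]
  · linear_combination h
  · linear_combination r31 * h
  · linear_combination r32 * h
  · linear_combination α * h
  · linear_combination α * r31 * h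
  · linear_combination α * r32 * h
  · linear_combination γ * h
  · linear_combination γ * r31 * h
  · linear_combination γ * r32 * h

theorem w_mat (a1 a2 a3 a4 a5 a6 : ℤ) :
    (Lm a1 * Um a2 * Lm a3 * Um a4 * Lm a5 * Um a6).1 =
      !![1, 0, 0;
        0, (1 + a2 * a3) + (a4 + a2 * (1 + a3 * a4)) * a5,
          (1 + a2 * a3) * a6 + (a4 + a2 * (1 + a3 * a4)) * (1 + a5 * a6);
        0, (a1 + (1 + a1 * a2) * a3) + (a1 * a4 + (1 + a1 * a2) * (1 + a3 * a4)) * a5,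
          (a1 + (1 + a1 * a2) * a3) * a6 +
            (a1 * a4 + (1 + a1 * a2) * (1 + a3 * a4)) * (1 + a5 * a6)] := by
  have e : ∀ a b : ℤ, (Lm a).1 * (Um b).1 = !![1, 0, 0; 0, 1, b; 0, a, 1 + a * b] := by
    intro a b
    unfold Lm Um
    ext i j
    fin_cases i <;> fin_cases j <;> simp [Matrix.mul_apply, Fin.sum_univ_three]
    ring
  show (Lm a1).1 * (Um a2).1 * (Lm a3).1 * (Um a4).1 * (Lm a5).1 * (Um a6).1 = _
  rw [Matrix.mul_assoc _ (Lm a5).1, Matrix.mul_assoc _ (Lm a3).1, e, e, e]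
  ext i j
  fin_cases i <;> fin_cases j <;>
    simp only [Matrix.mul_apply, Fin.sum_univ_three, Matrix.of_apply, Matrix.cons_val',
      Matrix.cons_val_zero, Matrix.cons_val_one, Matrix.cons_val, Matrix.cons_val_fin_one,
      Fin.zero_eta, Fin.mk_one, Fin.isValue, Fin.reduceFinMk] <;> ring

theorem fam_P {n g1 dp g2 t x y e : ℤ} (hrel : n * g1 + 2 = dp * g2)
    (hN : x ^ 2 + t * x * y + (n * dp) * y ^ 2 = e) (he : e ^ 2 = 1) :
    ∃ c11 c12 r21 r22 δ r31 r32 s1 s2 s3 s4 s5 s6 p q : ℤ,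
      (Cm c11 c12 * Rm r21 r22 *
        Cm (-(n * dp * (1 + n * g1 - g1)) * y + (1 + n * g1) * x) δ * Rm r31 r32 *
        (Um s1 * Lm s2 * Um s3 * Lm s4 * Um s5 * Lm s6)).1 =
      !![0, p, q; -(n * dp * (1 + n * g1 - g1)) * y + (1 + n * g1) * x, n * dp, 0; δ, 0, 1] := by
  obtain ⟨d, hd⟩ : ∃ d, d = n * dp := ⟨_, rfl⟩
  obtain ⟨A1, hA1⟩ : ∃ A1, A1 = d * (1 + n * g1 - g1) := ⟨_, rfl⟩
  obtain ⟨B1, hB1⟩ : ∃ B1, B1 = 1 + n * g1 := ⟨_, rfl⟩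
  obtain ⟨C1, hC1⟩ : ∃ C1, C1 = n * (2 + n * g1) - (1 + n * g1) := ⟨_, rfl⟩
  obtain ⟨T, hT⟩ : ∃ T, T = t + 1 + (n - 1) * dp := ⟨_, rfl⟩
  obtain ⟨α, hα⟩ : ∃ α, α = A1 * (x + t * y) + B1 * (y * d) := ⟨_, rfl⟩
  obtain ⟨β, hβ⟩ : ∃ β, β = -A1 * y + B1 * x := ⟨_, rfl⟩
  obtain ⟨γ, hγ⟩ : ∃ γ, γ = C1 * (x + t * y) + g2 * (y * d) := ⟨_, rfl⟩
  obtain ⟨δ, hδ⟩ : ∃ δ, δ = -C1 * y + g2 * x := ⟨_, rfl⟩
  have hdetX : A1 * g2 - B1 * C1 = 1 := by
    rw [hA1, hB1, hC1, hd]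
    linear_combination (-(n^2*g1 + (-n*g1) + n)) * hrel
  rw [← hd] at hN
  have hdetS : α * δ - β * γ = e := by
    rw [hα, hβ, hγ, hδ]
    linear_combination (A1 * g2 - B1 * C1) * hN + e * hdetX
  have heN : e * (x ^ 2 + t * x * y + d * y ^ 2) = 1 := by rw [hN]; linear_combination he
  -- the entries of `w`
  obtain ⟨w11, hw11⟩ : ∃ w, w = (1 + g1 * (n - 1)) + (T + g1 * (1 + (n - 1) * T)) * g2 := ⟨_, rfl⟩
  obtain ⟨w12, hw12⟩ : ∃ w, w = (1 + g1 * (n - 1)) * (-dp) +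
    (T + g1 * (1 + (n - 1) * T)) * (1 + g2 * (-dp)) := ⟨_, rfl⟩
  obtain ⟨w21, hw21⟩ : ∃ w, w = (n + (1 + n * g1) * (n - 1)) +
    (n * T + (1 + n * g1) * (1 + (n - 1) * T)) * g2 := ⟨_, rfl⟩
  obtain ⟨w22, hw22⟩ : ∃ w, w = (n + (1 + n * g1) * (n - 1)) * (-dp) +
    (n * T + (1 + n * g1) * (1 + (n - 1) * T)) * (1 + g2 * (-dp)) := ⟨_, rfl⟩
  have hdetw : w11 * w22 - w12 * w21 = 1 := by
    rw [hw11, hw12, hw21, hw22]; ring
  have hS11 : (t * A1 + d * B1) * g2 + A1 * C1 = d * w11 := by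
    rw [hA1, hB1, hC1, hw11, hT, hd]
    linear_combination (-((-n^3*g1*dp) + 2*n^2*g1*dp + (-n^2*dp) + (-n*g1*dp) + n*dp)) * hrel
  have hS12 : -(t * A1 + d * B1) * B1 - A1 * A1 = d * w12 := by
    rw [hA1, hB1, hw12, hT, hd]
    linear_combination (-(n^3*g1*dp^2 + (-2*n^2*g1*dp^2) + n^2*g1*dp*t + n^2*g1*dp + n^2*dp^2 + n*g1*dp^2 + (-n*g1*dp*t) + (-n*dp^2) + n*dp*t + n*dp)) * hrel
  have hS21 : (t * C1 + d * g2) * g2 + C1 * C1 = w21 := by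
    rw [hC1, hw21, hT, hd]
    linear_combination (-((-n^3*g1) + 2*n^2*g1 + (-2*n^2) + (-n*g1) + n*g2 + 3*n + (-1))) * hrel
  have hS22 : -(t * C1 + d * g2) * B1 - C1 * A1 = w22 := by
    rw [hA1, hB1, hC1, hw22, hT, hd]
    linear_combination (-(n^3*g1*dp + (-2*n^2*g1*dp) + n^2*g1*t + 2*n^2*dp + n*g1*dp + (-n*g1*t) + (-3*n*dp) + 2*n*t + n + dp + (-t))) * hrel
  obtain ⟨r21, hr21⟩ : ∃ r, r = e * ((t - 1) * δ + γ) := ⟨_, rfl⟩
  obtain ⟨r22, hr22⟩ : ∃ r, r = e * (-(t - 1) * β - α) := ⟨_, rfl⟩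
  obtain ⟨r31, hr31⟩ : ∃ r, r = e * (d * δ + γ) := ⟨_, rfl⟩
  obtain ⟨r32, hr32⟩ : ∃ r, r = e * (-d * β - α) := ⟨_, rfl⟩
  have hr : r21 * β + r22 * δ = -1 := by
    rw [hr21, hr22]
    linear_combination (-e) * hdetS - he
  have hE11 : 1 + α * r21 + β * r31 = d * w11 := by
    rw [← hS11, hr21, hr31]
    have h1 : t * α * δ + α * γ + d * β * δ =
        (x ^ 2 + t * x * y + d * y ^ 2) * ((t * A1 + d * B1) * g2 + A1 * C1) := by
      rw [hα, hβ, hγ, hδ]; ring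
    linear_combination e * h1 + ((t * A1 + d * B1) * g2 + A1 * C1) * heN + (-e) * hdetS - he
  have hE12 : α * r22 + β * r32 = d * w12 := by
    rw [← hS12, hr22, hr32]
    have h1 : -(t * α + d * β) * β - α * α =
        (x ^ 2 + t * x * y + d * y ^ 2) * (-(t * A1 + d * B1) * B1 - A1 * A1) := by
      rw [hα, hβ]; ring
    linear_combination e * h1 + (-(t * A1 + d * B1) * B1 - A1 * A1) * heN
  have hE21 : γ * r21 + δ * r31 = w21 := by
    rw [← hS21, hr21, hr31]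
    have h1 : (t * γ + d * δ) * δ + γ * γ =
        (x ^ 2 + t * x * y + d * y ^ 2) * ((t * C1 + d * g2) * g2 + C1 * C1) := by
      rw [hγ, hδ]; ring
    linear_combination e * h1 + ((t * C1 + d * g2) * g2 + C1 * C1) * heN
  have hE22 : 1 + γ * r22 + δ * r32 = w22 := by
    rw [← hS22, hr22, hr32]
    have h1 : -(t * γ + d * δ) * β - γ * α =
        (x ^ 2 + t * x * y + d * y ^ 2) * (-(t * C1 + d * g2) * B1 - C1 * A1) := by
      rw [hα, hβ, hγ, hδ]; ring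
    linear_combination e * h1 + (-(t * C1 + d * g2) * B1 - C1 * A1) * heN + (-e) * hdetS - he
  have hβ2 : -(n * dp * (1 + n * g1 - g1)) * y + (1 + n * g1) * x = β := by
    rw [hβ, hA1, hB1, hd]
  rw [hβ2, ← hd]
  refine ⟨α, γ, r21, r22, δ, r31, r32, dp, -g2, -T, 1 - n, -g1, -n,
    r21 * w22 - r22 * w21, -r21 * w12 + r22 * w11, ?_⟩
  have hh : Um dp * Lm (-g2) * Um (-T) * Lm (1 - n) * Um (-g1) * Lm (-n) =
      (Lm n * Um g1 * Lm (n - 1) * Um T * Lm g2 * Um (-dp))⁻¹ := by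
    have e2 : Lm (1 - n) = (Lm (n - 1))⁻¹ := by rw [← Lm_neg, neg_sub]
    rw [e2, Lm_neg g2, Um_neg T, Um_neg g1, Lm_neg n, Um_neg dp]
    simp only [_root_.mul_inv_rev, _root_.inv_inv, _root_.mul_assoc]
  rw [hh]
  have hQ := Q_mat (α := α) (γ := γ) (r31 := r31) (r32 := r32) hr
  rw [hE11, hE12, hE21, hE22] at hQ
  have hw := w_mat n g1 (n - 1) T g2 (-dp)
  rw [← hw11, ← hw12, ← hw21, ← hw22] at hw
  have hprod : (Cm α γ * Rm r21 r22 * Cm β δ * Rm r31 r32).1 =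
      !![0, r21 * w22 - r22 * w21, -r21 * w12 + r22 * w11; β, d, 0; δ, 0, 1] *
        (Lm n * Um g1 * Lm (n - 1) * Um T * Lm g2 * Um (-dp)).1 := by
    rw [hQ, hw]
    ext i j
    fin_cases i <;> fin_cases j <;>
      simp only [Matrix.mul_apply, Fin.sum_univ_three, Matrix.of_apply, Matrix.cons_val',
        Matrix.cons_val_zero, Matrix.cons_val_one, Matrix.cons_val, Matrix.cons_val_fin_one,
        Fin.zero_eta, Fin.mk_one, Fin.isValue, Fin.reduceFinMk]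
    · ring
    · linear_combination (-r21) * hdetw
    · linear_combination (-r22) * hdetw
    · ring
    · ring
    · ring
    · ring
    · ring
    · ring
  show (Cm α γ * Rm r21 r22 * Cm β δ * Rm r31 r32).1 *
    ((Lm n * Um g1 * Lm (n - 1) * Um T * Lm g2 * Um (-dp))⁻¹).1 = _
  rw [hprod, Matrix.mul_assoc]
  have hone : (Lm n * Um g1 * Lm (n - 1) * Um T * Lm g2 * Um (-dp)).1 *
      ((Lm n * Um g1 * Lm (n - 1) * Um T * Lm g2 * Um (-dp))⁻¹).1 = 1 := by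
    have := congrArg Subtype.val
      (mul_inv_cancel (Lm n * Um g1 * Lm (n - 1) * Um T * Lm g2 * Um (-dp)))
    exact this
  rw [hone, Matrix.mul_one]

/-- `diag(A,1)` for the classes `c = x₀ x`. -/
theorem six_class {n g1 dp g2 t x y a b c : ℤ} (hrel : n * g1 + 2 = dp * g2) (hd : n * dp ≠ 0)
    (hN : x ^ 2 + t * x * y + (n * dp) * y ^ 2 = 1 ∨ x ^ 2 + t * x * y + (n * dp) * y ^ 2 = -1)
    (hdet : a * (n * dp) - b * c = 1) (hc : n * dp ∣ (1 + n * g1) * x - c)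
    (g : Matrix.SpecialLinearGroup (Fin 3) ℤ) (hg : g.1 = !![a, b, 0; c, n * dp, 0; 0, 0, 1]) :
    ∃ u1 l1 u2 l2 u3 l3 : Matrix.SpecialLinearGroup (Fin 3) ℤ,
      InU u1 ∧ InL l1 ∧ InU u2 ∧ InL l2 ∧ InU u3 ∧ InL l3 ∧ u1 * l1 * u2 * l2 * u3 * l3 = g := by
  obtain ⟨e, he, hN'⟩ : ∃ e : ℤ, e ^ 2 = 1 ∧ x ^ 2 + t * x * y + (n * dp) * y ^ 2 = e := by
    rcases hN with h1 | h1
    · exact ⟨1, by norm_num, h1⟩
    · exact ⟨-1, by norm_num, h1⟩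
  obtain ⟨c11, c12, r21, r22, δ, r31, r32, s1, s2, s3, s4, s5, s6, p, q, hP⟩ :=
    fam_P hrel hN' he
  have hβ : n * dp ∣ (-(n * dp * (1 + n * g1 - g1)) * y + (1 + n * g1) * x) - c := by
    obtain ⟨m, hm⟩ := hc
    exact ⟨m - (1 + n * g1 - g1) * y, by linear_combination hm⟩
  obtain ⟨ρ1, ρ2, k1, k2, hk⟩ := reduce_diag _ g hP hd hdet hβ hg
  obtain ⟨u1, l1, u2, l2, u3, l3, h1, h2, h3, h4, h5, h6, h7⟩ :=
    collect ρ1 ρ2 c11 c12 r21 r22 (-(n * dp * (1 + n * g1 - g1)) * y + (1 + n * g1) * x) δ r31 r32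
      k1 k2 s1 s2 s3 s4 s5 s6
  exact ⟨u1, l1, u2, l2, u3, l3, h1, h2, h3, h4, h5, h6, h7.trans hk⟩

end Pool.Agent.Lib.MP_efa98f_al.Fam77
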