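import Pool.Agent.Lib.MP_efa98f_al.Three77.Sets
import Pool.Agent.Lib.MP_efa98f_al.Three77.FamP
import Pool.Agent.Lib.MP_efa98f_al.U77.UnitExists
import Pool.Agent.Lib.MP_efa98f_al.U77.Crt45

/-!
# MP_efa98f_al: `diag(A,1)` for every `A ∈ SL(2,ℤ)`
-/

namespace Pool.Agent.Lib.MP_efa98f_al.Three77

open Pool.Agent.Lib.MP_efa98f_al.Fam77 in
theorem all_diag {a b c d : ℤ} (h : a * d - b * c = 1)
    (g : Matrix.SpecialLinearGroup (Fin 3) ℤ) (hg : g.1 = !![a, b, 0; c, d, 0; 0, 0, 1]) :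
    ∃ u1 l1 u2 l2 u3 l3 : Matrix.SpecialLinearGroup (Fin 3) ℤ,
      InU u1 ∧ InL l1 ∧ InU u2 ∧ InL l2 ∧ InU u3 ∧ InL l3 ∧ u1 * l1 * u2 * l2 * u3 * l3 = g := by
  have hcop : IsCoprime c d := ⟨-b, a, by linear_combination h⟩
  by_cases h12 : ¬ (12 : ℤ) ∣ d ∨ (12 : ℤ) ∣ c - 1 ∨ (12 : ℤ) ∣ c + 1
  · obtain ⟨t, x, y, hN, hx⟩ := U77.unit_exists c d hcop h12
    obtain ⟨u1, l1, u2, l2, u3, l3, hu1, hl1, hu2, hl2, hu3, hl3, he⟩ := six_group h hx hN g hg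
    exact ⟨u1, l1, u2, l2, u3, l3, hu1, hl1, hu2, hl2, hu3, hl3, he⟩
  · have h12d : (12 : ℤ) ∣ d := by
      by_contra h0
      exact h12 (Or.inl h0)
    have hd0 : d ≠ 0 := by
      rintro rfl
      apply h12
      have hc : IsUnit c := isCoprime_zero_right.mp hcop
      rcases Int.isUnit_iff.mp hc with hc | hc
      · right; left; rw [hc]; simp
      · right; right; rw [hc]; simp
    rcases Inv45.crt_part c d hd0 hcop h12d with h1 | ⟨n, g1, dp, g2, hd, hrel, hcl, hcop'⟩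
    · exact absurd (Or.inr h1) h12
    · obtain ⟨t, x, y, hN, hx⟩ := U77.unit_exists ((1 + n * g1) * c) d hcop' (Or.inr hcl)
      subst hd
      refine six_class (n := n) (g1 := g1) (dp := dp) (g2 := g2) (t := t) (x := x) (y := y)
        hrel hd0 hN h ?_ g hg
      obtain ⟨m, hm⟩ := hx
      refine ⟨(1 + n * g1) * m + g1 * g2 * c, ?_⟩
      linear_combination (1 + n * g1) * hm + n * g1 * c * hrel

end Pool.Agent.Lib.MP_efa98f_al.Three77
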