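import Mathlib

/-!
# MP_efa98f_al: a factorisation of length six in `SL(3,ℤ)` with a free exponent
-/

namespace Pool.Agent.Lib.MP_efa98f_al.Three77

open Matrix

/-- The explicit product of six unitriangular matrices. -/
theorem six {a b c d x y t s e : ℤ} (h : a * d - b * c = 1) (hx : x = c + d * s)
    (hN : x ^ 2 + t * x * y + d * y ^ 2 = e) (he : e ^ 2 = 1) :
    ∃ k r1 r2 : ℤ,
      (!![1, k - e * y, k + e * x; 0, 1, 1; 0, 0, 1] : Matrix (Fin 3) (Fin 3) ℤ) *
      !![1, 0, 0; t * x + (d + 1) * y, 1, 0; -(x + y), -1, 1] *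
      !![1, e * ((t - 1) * x + d * y), -e * (x + y); 0, 1, 1; 0, 0, 1] *
      !![1, 0, 0; -y, 1, 0; x, t, 1] *
      !![1, r1, r2; 0, 1, 0; 0, 0, 1] *
      !![1, 0, 0; -s, 1, 0; -y, 0, 1] = !![a, b, 0; c, d, 0; 0, 0, 1] := by
  have hdet : d * (a + b * s) - b * x = 1 := by rw [hx]; linear_combination h
  obtain ⟨z, hz⟩ : ∃ z, z = b + e * (x + t * y) := ⟨_, rfl⟩
  obtain ⟨w, hw⟩ : ∃ w, w = a + b * s - e * y ^ 2 := ⟨_, rfl⟩
  have h0 : x * z = d * w := by
    rw [hz, hw]; linear_combination e * hN + he - hdet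
  obtain ⟨k, hk⟩ : ∃ k, k = z * (a + b * s) - b * w := ⟨_, rfl⟩
  have h1 : d * k = z := by
    rw [hk]; linear_combination z * hdet + b * h0
  have h2 : x * k = w := by
    rw [hk]; linear_combination (a + b * s) * h0 + w * hdet
  rw [hz] at h1
  rw [hw] at h2
  refine ⟨k, e * ((d - t + 1) * (x + t * y) + (t - 2) * (x + t * y - d * y)),
    e * ((d - t + 1) * y + (t - 2) * (x + y)), ?_⟩
  have hQ : (!![1, 0, 0; t * x + (d + 1) * y, 1, 0; -(x + y), -1, 1] : Matrix (Fin 3) (Fin 3) ℤ) *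
      !![1, e * ((t - 1) * x + d * y), -e * (x + y); 0, 1, 1; 0, 0, 1] *
      !![1, 0, 0; -y, 1, 0; x, t, 1] *
      !![1, e * ((d - t + 1) * (x + t * y) + (t - 2) * (x + t * y - d * y)),
        e * ((d - t + 1) * y + (t - 2) * (x + y)); 0, 1, 0; 0, 0, 1] =
      !![0, -e * (x + t * y - d * y), -e * (x + y); x - y, d, -1; y, 0, 1] := by
    have hE : 1 - e * (x ^ 2 + t * x * y + d * y ^ 2) = 0 := by linear_combination (-e) * hN - he
    ext i j
    fin_cases i <;> fin_cases j <;>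
      simp only [Matrix.mul_apply, Fin.sum_univ_three, Matrix.of_apply, Matrix.cons_val', Matrix.cons_val_zero,
        Matrix.cons_val_one, Matrix.cons_val, Matrix.cons_val_fin_one, Fin.zero_eta, Fin.mk_one, Fin.isValue, Fin.reduceFinMk]
    · linear_combination (-e) * hN - he
    · linear_combination (e * ((d - t + 1) * (x + t * y) + (t - 2) * (x + t * y - d * y))) * ((-e) * hN - he)
    · linear_combination (e * ((d - t + 1) * y + (t - 2) * (x + y))) * ((-e) * hN - he)
    · linear_combination (t * x + (d + 1) * y) * ((-e) * hN - he)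
    · linear_combination (d - t - 1) * (e * hN + he) + (e * ((d - t + 1) * (x + t * y) + (t - 2) * (x + t * y - d * y))) * (t * x + (d + 1) * y) * ((-e) * hN - he)
    · linear_combination (-2) * (e * hN + he) + (e * ((d - t + 1) * y + (t - 2) * (x + y))) * (t * x + (d + 1) * y) * ((-e) * hN - he)
    · linear_combination (-(x + y)) * ((-e) * hN - he)
    · linear_combination (e * hN + he) + (e * ((d - t + 1) * (x + t * y) + (t - 2) * (x + t * y - d * y))) * (-(x + y)) * ((-e) * hN - he)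
    · linear_combination (e * hN + he) + (e * ((d - t + 1) * y + (t - 2) * (x + y))) * (-(x + y)) * ((-e) * hN - he)
  have hassoc : (!![1, k - e * y, k + e * x; 0, 1, 1; 0, 0, 1] : Matrix (Fin 3) (Fin 3) ℤ) *
      !![1, 0, 0; t * x + (d + 1) * y, 1, 0; -(x + y), -1, 1] *
      !![1, e * ((t - 1) * x + d * y), -e * (x + y); 0, 1, 1; 0, 0, 1] *
      !![1, 0, 0; -y, 1, 0; x, t, 1] *
      !![1, e * ((d - t + 1) * (x + t * y) + (t - 2) * (x + t * y - d * y)),
        e * ((d - t + 1) * y + (t - 2) * (x + y)); 0, 1, 0; 0, 0, 1] *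
      !![1, 0, 0; -s, 1, 0; -y, 0, 1] =
      !![1, k - e * y, k + e * x; 0, 1, 1; 0, 0, 1] *
      (!![1, 0, 0; t * x + (d + 1) * y, 1, 0; -(x + y), -1, 1] *
      !![1, e * ((t - 1) * x + d * y), -e * (x + y); 0, 1, 1; 0, 0, 1] *
      !![1, 0, 0; -y, 1, 0; x, t, 1] *
      !![1, e * ((d - t + 1) * (x + t * y) + (t - 2) * (x + t * y - d * y)),
        e * ((d - t + 1) * y + (t - 2) * (x + y)); 0, 1, 0; 0, 0, 1]) *
      !![1, 0, 0; -s, 1, 0; -y, 0, 1] := by
    simp only [Matrix.mul_assoc]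
  rw [hassoc, hQ]
  have hc : c = x - d * s := by rw [hx]; ring
  ext i j
  fin_cases i <;> fin_cases j <;>
    simp only [Matrix.mul_apply, Fin.sum_univ_three, Matrix.of_apply, Matrix.cons_val', Matrix.cons_val_zero,
      Matrix.cons_val_one, Matrix.cons_val, Matrix.cons_val_fin_one, Fin.zero_eta, Fin.mk_one, Fin.isValue, Fin.reduceFinMk]
  · linear_combination h2 - s * h1
  · linear_combination h1
  · ring
  · linear_combination hx
  · ring
  · ring
  · ring
  · ring
  · ring

end Pool.Agent.Lib.MP_efa98f_al.Three77
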