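import Mathlib

/-!
# MP_efa98f_al: the descent from `det(v, E v) = ± δ ^ k` to `det(v, E v) = ± 1`
-/

namespace Pool.Agent.Lib.MP_efa98f_al.Desc77

/-- One step: `E = [E11, E12; E21, E22]`, `det E = δ`, `v` generates `ℤ² / E ℤ²`. -/
theorem step {E11 E12 E21 E22 δ v1 v2 e : ℤ} {k : ℕ} (hδ : δ ≠ 0)
    (hdet : E11 * E22 - E12 * E21 = δ)
    (hgen : ∀ u1 u2 : ℤ, ∃ a y1 y2 : ℤ, u1 = a * v1 + E11 * y1 + E12 * y2 ∧
      u2 = a * v2 + E21 * y1 + E22 * y2)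
    (hF : v1 * (E21 * v1 + E22 * v2) - v2 * (E11 * v1 + E12 * v2) = e * δ ^ (k + 1)) :
    ∃ w1 w2 : ℤ, E11 * v1 + E12 * v2 = δ * w1 ∧ E21 * v1 + E22 * v2 = δ * w2 ∧
      w1 * (E21 * w1 + E22 * w2) - w2 * (E11 * w1 + E12 * w2) = e * δ ^ k ∧
      v1 = (E11 + E22) * w1 - (E11 * w1 + E12 * w2) ∧
      v2 = (E11 + E22) * w2 - (E21 * w1 + E22 * w2) := by
  obtain ⟨a, y1, y2, h1, h2⟩ := hgen 0 1
  obtain ⟨b, x1, x2, g1, g2⟩ := hgen 1 0
  -- det(u, Ev) for u = (0,1) is - (Ev)_1, for u = (1,0) is (Ev)_2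
  have hw1 : E11 * v1 + E12 * v2 = δ * (-(a * e * δ ^ k) - (y1 * v2 - y2 * v1)) := by
    have : 0 * (E21 * v1 + E22 * v2) - 1 * (E11 * v1 + E12 * v2) =
        a * (v1 * (E21 * v1 + E22 * v2) - v2 * (E11 * v1 + E12 * v2)) +
          (E11 * E22 - E12 * E21) * (y1 * v2 - y2 * v1) := by
      linear_combination (E21 * v1 + E22 * v2) * h1 - (E11 * v1 + E12 * v2) * h2
    rw [hF, hdet, pow_succ] at this
    linear_combination -this
  have hw2 : E21 * v1 + E22 * v2 = δ * (b * e * δ ^ k + (x1 * v2 - x2 * v1)) := by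
    have : 1 * (E21 * v1 + E22 * v2) - 0 * (E11 * v1 + E12 * v2) =
        b * (v1 * (E21 * v1 + E22 * v2) - v2 * (E11 * v1 + E12 * v2)) +
          (E11 * E22 - E12 * E21) * (x1 * v2 - x2 * v1) := by
      linear_combination (E21 * v1 + E22 * v2) * g1 - (E11 * v1 + E12 * v2) * g2
    rw [hF, hdet, pow_succ] at this
    linear_combination this
  obtain ⟨w1, hw1e⟩ : ∃ w, w = -(a * e * δ ^ k) - (y1 * v2 - y2 * v1) := ⟨_, rfl⟩
  obtain ⟨w2, hw2e⟩ : ∃ w, w = b * e * δ ^ k + (x1 * v2 - x2 * v1) := ⟨_, rfl⟩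
  rw [← hw1e] at hw1
  rw [← hw2e] at hw2
  have hv1 : v1 = (E11 + E22) * w1 - (E11 * w1 + E12 * w2) := by
    apply mul_left_cancel₀ hδ
    linear_combination (-v1) * hdet + E22 * hw1 - E12 * hw2
  have hv2 : v2 = (E11 + E22) * w2 - (E21 * w1 + E22 * w2) := by
    apply mul_left_cancel₀ hδ
    linear_combination (-v2) * hdet - E21 * hw1 + E11 * hw2
  refine ⟨w1, w2, hw1, hw2, ?_, hv1, hv2⟩
  apply mul_left_cancel₀ hδ
  -- δ * det(w, E w) = det(E v, E w) / ... = det(v, E v) / ... 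
  have h3 : δ * (w1 * (E21 * w1 + E22 * w2) - w2 * (E11 * w1 + E12 * w2)) =
      v1 * (E21 * v1 + E22 * v2) - v2 * (E11 * v1 + E12 * v2) := by
    rw [hw1, hw2]
    have h4 : v1 * w2 - v2 * w1 = w1 * (E21 * w1 + E22 * w2) - w2 * (E11 * w1 + E12 * w2) := by
      linear_combination w2 * hv1 - w1 * hv2
    linear_combination (-δ) * h4
  rw [h3, hF, pow_succ]
  ring

theorem descent {E11 E12 E21 E22 δ e τ j : ℤ} (hδ : δ ≠ 0)
    (hdet : E11 * E22 - E12 * E21 = δ) (hτ : τ ^ 2 = 1) (ht : E11 + E22 = τ + δ * j) (k : ℕ) :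
    ∀ v1 v2 : ℤ, (∀ u1 u2 : ℤ, ∃ a y1 y2 : ℤ, u1 = a * v1 + E11 * y1 + E12 * y2 ∧
      u2 = a * v2 + E21 * y1 + E22 * y2) →
    v1 * (E21 * v1 + E22 * v2) - v2 * (E11 * v1 + E12 * v2) = e * δ ^ k →
    ∃ w1 w2 z1 z2 : ℤ, w1 * (E21 * w1 + E22 * w2) - w2 * (E11 * w1 + E12 * w2) = e ∧
      w1 = v1 + E11 * z1 + E12 * z2 ∧ w2 = v2 + E21 * z1 + E22 * z2 := by
  induction k with
  | zero =>
    intro v1 v2 _ hF
    exact ⟨v1, v2, 0, 0, by rw [hF]; ring, by ring, by ring⟩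
  | succ k ih =>
    intro v1 v2 hgen hF
    obtain ⟨w1, w2, hw1, hw2, hFw, hv1, hv2⟩ := step hδ hdet hgen hF
    have hgenw : ∀ u1 u2 : ℤ, ∃ a y1 y2 : ℤ, u1 = a * w1 + E11 * y1 + E12 * y2 ∧
        u2 = a * w2 + E21 * y1 + E22 * y2 := by
      intro u1 u2
      obtain ⟨a, y1, y2, h1, h2⟩ := hgen u1 u2
      refine ⟨a * (E11 + E22), y1 - a * w1, y2 - a * w2, ?_, ?_⟩
      · rw [h1]; linear_combination a * hv1
      · rw [h2]; linear_combination a * hv2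
    obtain ⟨x1, x2, z1, z2, hFx, hx1, hx2⟩ := ih w1 w2 hgenw hFw
    -- `w = τ v + E (…)`
    refine ⟨τ * x1, τ * x2, τ * z1 - j * (E22 * w1 - E12 * w2) + w1,
      τ * z2 - j * (-E21 * w1 + E11 * w2) + w2, ?_, ?_, ?_⟩
    · linear_combination (τ ^ 2) * hFx + e * hτ
    · rw [hx1]
      linear_combination -hv1 - w1 * ht + j * w1 * hdet
    · rw [hx2]
      linear_combination -hv2 - w2 * ht + j * w2 * hdet

end Pool.Agent.Lib.MP_efa98f_al.Desc77
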