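import Mathlib

/-!
# MP_efa98f_al: a factorisation of length six in `SL(3,ℤ)`, family with a class `x₀`, `x₀² = 1`
-/

namespace Pool.Agent.Lib.MP_efa98f_al.Fam77

open Matrix

/-- row element -/
def Rm (p q : ℤ) : Matrix.SpecialLinearGroup (Fin 3) ℤ :=
  ⟨!![1, p, q; 0, 1, 0; 0, 0, 1], by rw [Matrix.det_fin_three]; simp⟩

/-- column element -/
def Cm (p q : ℤ) : Matrix.SpecialLinearGroup (Fin 3) ℤ :=
  ⟨!![1, 0, 0; p, 1, 0; q, 0, 1], by rw [Matrix.det_fin_three]; simp⟩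

/-- upper letter of the lower right block -/
def Um (s : ℤ) : Matrix.SpecialLinearGroup (Fin 3) ℤ :=
  ⟨!![1, 0, 0; 0, 1, s; 0, 0, 1], by rw [Matrix.det_fin_three]; simp⟩

/-- lower letter of the lower right block -/
def Lm (s : ℤ) : Matrix.SpecialLinearGroup (Fin 3) ℤ :=
  ⟨!![1, 0, 0; 0, 1, 0; 0, s, 1], by rw [Matrix.det_fin_three]; simp⟩

/-- upper unitriangular -/
def InU (g : Matrix.SpecialLinearGroup (Fin 3) ℤ) : Prop :=
  (∀ i, g i i = 1) ∧ ∀ i j, j < i → g i j = 0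

/-- lower unitriangular -/
def InL (g : Matrix.SpecialLinearGroup (Fin 3) ℤ) : Prop :=
  (∀ i, g i i = 1) ∧ ∀ i j, i < j → g i j = 0

theorem Rm_Um (p q s : ℤ) : Rm p q * Um s = Um s * Rm p (q + p * s) := by
  apply Subtype.ext
  show (Rm p q).1 * (Um s).1 = (Um s).1 * (Rm p (q + p * s)).1
  unfold Rm Um
  ext i j
  fin_cases i <;> fin_cases j <;> simp [Matrix.mul_apply, Fin.sum_univ_three]
  ring

theorem Rm_Lm (p q s : ℤ) : Rm p q * Lm s = Lm s * Rm (p + q * s) q := by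
  apply Subtype.ext
  show (Rm p q).1 * (Lm s).1 = (Lm s).1 * (Rm (p + q * s) q).1
  unfold Rm Lm
  ext i j
  fin_cases i <;> fin_cases j <;> simp [Matrix.mul_apply, Fin.sum_univ_three]

theorem Cm_Um (p q s : ℤ) : Cm p q * Um s = Um s * Cm (p - s * q) q := by
  apply Subtype.ext
  show (Cm p q).1 * (Um s).1 = (Um s).1 * (Cm (p - s * q) q).1
  unfold Cm Um
  ext i j
  fin_cases i <;> fin_cases j <;> simp [Matrix.mul_apply, Fin.sum_univ_three]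

theorem Cm_Lm (p q s : ℤ) : Cm p q * Lm s = Lm s * Cm p (q - s * p) := by
  apply Subtype.ext
  show (Cm p q).1 * (Lm s).1 = (Lm s).1 * (Cm p (q - s * p)).1
  unfold Cm Lm
  ext i j
  fin_cases i <;> fin_cases j <;> simp [Matrix.mul_apply, Fin.sum_univ_three]

theorem inU_RU (p q s : ℤ) : InU (Rm p q * Um s) := by
  have e : (Rm p q * Um s).1 = !![1, p, p * s + q; 0, 1, s; 0, 0, 1] := by
    show (Rm p q).1 * (Um s).1 = _
    unfold Rm Um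
    ext i j
    fin_cases i <;> fin_cases j <;> simp [Matrix.mul_apply, Fin.sum_univ_three]
  refine ⟨?_, ?_⟩
  · intro i
    show (Rm p q * Um s).1 i i = 1
    rw [e]
    fin_cases i <;> rfl
  · intro i j hij
    show (Rm p q * Um s).1 i j = 0
    rw [e]
    fin_cases i <;> fin_cases j <;> first | rfl | (exfalso; revert hij; decide)

theorem inL_CL (p q s : ℤ) : InL (Cm p q * Lm s) := by
  have e : (Cm p q * Lm s).1 = !![1, 0, 0; p, 1, 0; q, s, 1] := by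
    show (Cm p q).1 * (Lm s).1 = _
    unfold Cm Lm
    ext i j
    fin_cases i <;> fin_cases j <;> simp [Matrix.mul_apply, Fin.sum_univ_three]
  refine ⟨?_, ?_⟩
  · intro i
    show (Cm p q * Lm s).1 i i = 1
    rw [e]
    fin_cases i <;> rfl
  · intro i j hij
    show (Cm p q * Lm s).1 i j = 0
    rw [e]
    fin_cases i <;> fin_cases j <;> first | rfl | (exfalso; revert hij; decide)

theorem inL_LC (p q s : ℤ) : InL (Lm s * Cm p q) := by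
  have e : (Lm s * Cm p q).1 = !![1, 0, 0; p, 1, 0; s * p + q, s, 1] := by
    show (Lm s).1 * (Cm p q).1 = _
    unfold Cm Lm
    ext i j
    fin_cases i <;> fin_cases j <;> simp [Matrix.mul_apply, Fin.sum_univ_three]
  refine ⟨?_, ?_⟩
  · intro i
    show (Lm s * Cm p q).1 i i = 1
    rw [e]
    fin_cases i <;> rfl
  · intro i j hij
    show (Lm s * Cm p q).1 i j = 0
    rw [e]
    fin_cases i <;> fin_cases j <;> first | rfl | (exfalso; revert hij; decide)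

/-- Collecting the letters. -/
theorem collect (p1 q1 p2 q2 p3 q3 p4 q4 p5 q5 p6 q6 s1 s2 s3 s4 s5 s6 : ℤ) :
    ∃ u1 l1 u2 l2 u3 l3 : Matrix.SpecialLinearGroup (Fin 3) ℤ,
      InU u1 ∧ InL l1 ∧ InU u2 ∧ InL l2 ∧ InU u3 ∧ InL l3 ∧
      u1 * l1 * u2 * l2 * u3 * l3 =
        Rm p1 q1 * (Cm p2 q2 * Rm p3 q3 * Cm p4 q4 * Rm p5 q5 *
          (Um s1 * Lm s2 * Um s3 * Lm s4 * Um s5 * Lm s6)) * Cm p6 q6 := by
  -- move `Um s1` to the left
  have h1 : ∀ h : Matrix.SpecialLinearGroup (Fin 3) ℤ,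
      Cm p2 q2 * Rm p3 q3 * Cm p4 q4 * Rm p5 q5 * (Um s1 * h) =
      Um s1 * (Cm (p2 - s1 * q2) q2 * Rm p3 (q3 + p3 * s1) * Cm (p4 - s1 * q4) q4 *
        Rm p5 (q5 + p5 * s1) * h) := by
    intro h
    calc Cm p2 q2 * Rm p3 q3 * Cm p4 q4 * Rm p5 q5 * (Um s1 * h)
        = Cm p2 q2 * Rm p3 q3 * Cm p4 q4 * (Rm p5 q5 * Um s1) * h := by group
      _ = Cm p2 q2 * Rm p3 q3 * (Cm p4 q4 * Um s1) * Rm p5 (q5 + p5 * s1) * h := by
          rw [Rm_Um]; group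
      _ = Cm p2 q2 * (Rm p3 q3 * Um s1) * Cm (p4 - s1 * q4) q4 * Rm p5 (q5 + p5 * s1) * h := by
          rw [Cm_Um]; group
      _ = (Cm p2 q2 * Um s1) * Rm p3 (q3 + p3 * s1) * Cm (p4 - s1 * q4) q4 *
            Rm p5 (q5 + p5 * s1) * h := by
          rw [Rm_Um]; group
      _ = _ := by rw [Cm_Um]; group
  have h2 : ∀ (a b c d e f : ℤ) (h : Matrix.SpecialLinearGroup (Fin 3) ℤ),
      Rm a b * Cm c d * Rm e f * (Lm s2 * h) =
      Lm s2 * (Rm (a + b * s2) b * Cm c (d - s2 * c) * Rm (e + f * s2) f * h) := by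
    intro a b c d e f h
    calc Rm a b * Cm c d * Rm e f * (Lm s2 * h)
        = Rm a b * Cm c d * (Rm e f * Lm s2) * h := by group
      _ = Rm a b * (Cm c d * Lm s2) * Rm (e + f * s2) f * h := by rw [Rm_Lm]; group
      _ = (Rm a b * Lm s2) * Cm c (d - s2 * c) * Rm (e + f * s2) f * h := by rw [Cm_Lm]; group
      _ = _ := by rw [Rm_Lm]; group
  have h3 : ∀ (c d e f : ℤ) (h : Matrix.SpecialLinearGroup (Fin 3) ℤ),
      Cm c d * Rm e f * (Um s3 * h) =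
      Um s3 * (Cm (c - s3 * d) d * Rm e (f + e * s3) * h) := by
    intro c d e f h
    calc Cm c d * Rm e f * (Um s3 * h)
        = Cm c d * (Rm e f * Um s3) * h := by group
      _ = (Cm c d * Um s3) * Rm e (f + e * s3) * h := by rw [Rm_Um]; group
      _ = _ := by rw [Cm_Um]; group
  have h4 : ∀ (e f : ℤ) (h : Matrix.SpecialLinearGroup (Fin 3) ℤ),
      Rm e f * (Lm s4 * h) = Lm s4 * (Rm (e + f * s4) f * h) := by
    intro e f h
    rw [← mul_assoc, Rm_Lm, mul_assoc]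
  obtain ⟨a2, ha2⟩ : ∃ z, z = p2 - s1 * q2 := ⟨_, rfl⟩
  obtain ⟨b3, hb3⟩ : ∃ z, z = q3 + p3 * s1 := ⟨_, rfl⟩
  obtain ⟨a4, ha4⟩ : ∃ z, z = p4 - s1 * q4 := ⟨_, rfl⟩
  obtain ⟨b5, hb5⟩ : ∃ z, z = q5 + p5 * s1 := ⟨_, rfl⟩
  have e1 := h1 (Lm s2 * (Um s3 * (Lm s4 * (Um s5 * Lm s6))))
  rw [← ha2, ← hb3, ← ha4, ← hb5] at e1
  have e2 := h2 p3 b3 a4 q4 p5 b5 (Um s3 * (Lm s4 * (Um s5 * Lm s6)))
  obtain ⟨a3', ha3'⟩ : ∃ z, z = p3 + b3 * s2 := ⟨_, rfl⟩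
  obtain ⟨b4', hb4'⟩ : ∃ z, z = q4 - s2 * a4 := ⟨_, rfl⟩
  obtain ⟨a5', ha5'⟩ : ∃ z, z = p5 + b5 * s2 := ⟨_, rfl⟩
  rw [← ha3', ← hb4', ← ha5'] at e2
  have e3 := h3 a4 b4' a5' b5 (Lm s4 * (Um s5 * Lm s6))
  obtain ⟨a4', ha4'⟩ : ∃ z, z = a4 - s3 * b4' := ⟨_, rfl⟩
  obtain ⟨b5', hb5'⟩ : ∃ z, z = b5 + a5' * s3 := ⟨_, rfl⟩
  rw [← ha4', ← hb5'] at e3
  have e4 := h4 a5' b5' (Um s5 * Lm s6)
  refine ⟨Rm p1 q1 * Um s1, Cm a2 q2 * Lm s2, Rm a3' b3 * Um s3, Cm a4' b4' * Lm s4,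
    Rm (a5' + b5' * s4) b5' * Um s5, Lm s6 * Cm p6 q6, inU_RU _ _ _, inL_CL _ _ _, inU_RU _ _ _,
    inL_CL _ _ _, inU_RU _ _ _, inL_LC _ _ _, ?_⟩
  have hsplit : Um s1 * Lm s2 * Um s3 * Lm s4 * Um s5 * Lm s6 =
      Um s1 * (Lm s2 * (Um s3 * (Lm s4 * (Um s5 * Lm s6)))) := by group
  rw [hsplit, e1]
  have e2' : Cm a2 q2 * Rm p3 b3 * Cm a4 q4 * Rm p5 b5 *
      (Lm s2 * (Um s3 * (Lm s4 * (Um s5 * Lm s6)))) =
      Cm a2 q2 * (Rm p3 b3 * Cm a4 q4 * Rm p5 b5 *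
      (Lm s2 * (Um s3 * (Lm s4 * (Um s5 * Lm s6))))) := by group
  have e3' : Rm a3' b3 * Cm a4 b4' * Rm a5' b5 * (Um s3 * (Lm s4 * (Um s5 * Lm s6))) =
      Rm a3' b3 * (Cm a4 b4' * Rm a5' b5 * (Um s3 * (Lm s4 * (Um s5 * Lm s6)))) := by group
  have e4' : Cm a4' b4' * Rm a5' b5' * (Lm s4 * (Um s5 * Lm s6)) =
      Cm a4' b4' * (Rm a5' b5' * (Lm s4 * (Um s5 * Lm s6))) := by group
  rw [e2', e2, e3', e3, e4', e4]
  group

/-- Reduction of `diag(A,1)` to a special matrix. -/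
theorem reduce_diag {a b c d p q β δ : ℤ} (P g : Matrix.SpecialLinearGroup (Fin 3) ℤ)
    (hP : P.1 = !![0, p, q; β, d, 0; δ, 0, 1]) (hd : d ≠ 0) (hdet : a * d - b * c = 1)
    (hβ : d ∣ β - c) (hg : g.1 = !![a, b, 0; c, d, 0; 0, 0, 1]) :
    ∃ r1 r2 k1 k2 : ℤ, Rm r1 r2 * P * Cm k1 k2 = g := by
  have hPdet : -(p * β) - q * d * δ = 1 := by
    have h := P.2
    rw [hP, Matrix.det_fin_three] at h
    simp at h
    linarith
  obtain ⟨m, hm⟩ := hβ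
  have hcop : IsCoprime c d := ⟨-b, a, by linear_combination hdet⟩
  have hj : d ∣ c * (b - p) := ⟨a + p * m + q * δ, by
    have hβ' : β = c + d * m := by linear_combination hm
    rw [hβ'] at hPdet
    linear_combination hPdet - hdet⟩
  obtain ⟨j, hj⟩ := hcop.symm.dvd_of_dvd_mul_left hj
  refine ⟨j, -q, -m, -δ, ?_⟩
  apply Subtype.ext
  show (Rm j (-q)).1 * P.1 * (Cm (-m) (-δ)).1 = g.1
  rw [hP, hg]
  unfold Rm Cm
  have h00 : p * (-m) - q * δ + j * c = a := by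
    apply mul_left_cancel₀ hd
    have hβ' : β = c + d * m := by linear_combination hm
    rw [hβ'] at hPdet
    linear_combination hPdet - hdet - c * hj
  ext i j'
  fin_cases i <;> fin_cases j' <;> simp [Matrix.mul_apply, Fin.sum_univ_three]
  · linear_combination h00 + j * hm
  · linear_combination -hj
  · linear_combination hm

end Pool.Agent.Lib.MP_efa98f_al.Fam77
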