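import Pool.Agent.Lib.MP_efa98f_al.Three77.Desc
import Pool.Agent.Lib.MP_efa98f_al.Crit10G
import Pool.Agent.Lib.MP_efa98f_al.V088

/-!
# MP_efa98f_al: all `g ∈ SL(3,ℤ)` with `|δ| ≥ 2`, from the number theoretic statement `NT`
-/

open scoped Pointwise

set_option linter.unusedVariables false

namespace Pool.Agent.Lib.MP_efa98f_al.Nd77

open Matrix Ext11

theorem delta_two
    (NT : ∀ A B δ : ℤ, IsCoprime A B → 2 ≤ δ.natAbs →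
      ∃ (x1 x2 x3 σ : ℤ) (k : ℕ), 1 ≤ k ∧ (σ = 1 ∨ σ = -1) ∧
      (A + x1 * B) + x3 * (B + x2 * (A + x1 * B)) = σ * δ ^ k ∧
      (δ ∣ (B + x2 * (A + x1 * B)) - 1 ∨ δ ∣ (B + x2 * (A + x1 * B)) + 1))
    (g : Matrix.SpecialLinearGroup (Fin 3) ℤ)
    (h : 2 ≤ (g.1 1 1 * g.1 2 2 - g.1 1 2 * g.1 2 1).natAbs) :
    g ∈ upU * loU * upU * loU * upU * loU := by
  obtain ⟨e1, he1⟩ : ∃ x, g.1 1 0 = x := ⟨_, rfl⟩
  obtain ⟨p, hp⟩ : ∃ x, g.1 1 1 = x := ⟨_, rfl⟩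
  obtain ⟨q, hq⟩ : ∃ x, g.1 1 2 = x := ⟨_, rfl⟩
  obtain ⟨e2, he2⟩ : ∃ x, g.1 2 0 = x := ⟨_, rfl⟩
  obtain ⟨r, hr⟩ : ∃ x, g.1 2 1 = x := ⟨_, rfl⟩
  obtain ⟨s, hs⟩ : ∃ x, g.1 2 2 = x := ⟨_, rfl⟩
  rw [hp, hq, hr, hs] at h
  have hδ0 : p * s - q * r ≠ 0 := by
    intro h0
    rw [h0] at h
    simp at h
  -- determinant
  have hdet := g.2
  rw [Matrix.det_fin_three, he1, hp, hq, he2, hr, hs] at hdet
  -- the inverse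
  have hinv : ∀ i j, g.1 i 0 * (g⁻¹).1 0 j + g.1 i 1 * (g⁻¹).1 1 j + g.1 i 2 * (g⁻¹).1 2 j =
      (1 : Matrix (Fin 3) (Fin 3) ℤ) i j := by
    intro i j
    have h1 : g.1 * (g⁻¹).1 = 1 := congrArg Subtype.val (mul_inv_cancel g)
    rw [← h1, Matrix.mul_apply, Fin.sum_univ_three]
  have R11 := hinv 1 1
  have R12 := hinv 1 2
  have R21 := hinv 2 1
  have R22 := hinv 2 2
  rw [he1, hp, hq] at R11 R12
  rw [he2, hr, hs] at R21 R22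
  have i11 : (1 : Matrix (Fin 3) (Fin 3) ℤ) 1 1 = 1 := rfl
  have i12 : (1 : Matrix (Fin 3) (Fin 3) ℤ) 1 2 = 0 := rfl
  have i21 : (1 : Matrix (Fin 3) (Fin 3) ℤ) 2 1 = 0 := rfl
  have i22 : (1 : Matrix (Fin 3) (Fin 3) ℤ) 2 2 = 1 := rfl
  rw [i11] at R11
  rw [i12] at R12
  rw [i21] at R21
  rw [i22] at R22
  have hspan : ∀ u1 u2 : ℤ, ∃ a y1 y2 : ℤ, u1 = a * e1 + p * y1 + q * y2 ∧
      u2 = a * e2 + r * y1 + s * y2 := by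
    intro u1 u2
    refine ⟨u1 * (g⁻¹).1 0 1 + u2 * (g⁻¹).1 0 2, u1 * (g⁻¹).1 1 1 + u2 * (g⁻¹).1 1 2,
      u1 * (g⁻¹).1 2 1 + u2 * (g⁻¹).1 2 2, ?_, ?_⟩
    · linear_combination (-u1) * R11 - u2 * R12
    · linear_combination (-u1) * R21 - u2 * R22
  obtain ⟨x5, x6, z1, z2, hz1, hz2⟩ := E90.exists_v0 p q r s e1 e2 hδ0
    ⟨g.1 0 2, -g.1 0 1, g.1 0 0, by linear_combination hdet⟩
  obtain ⟨v1, hv1⟩ : ∃ v, v = 1 + x5 * x6 := ⟨_, rfl⟩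
  obtain ⟨v2, hv2⟩ : ∃ v, v = -x5 := ⟨_, rfl⟩
  rw [← hv1] at hz1
  rw [← hv2] at hz2
  have hspan' : ∀ u1 u2 : ℤ, ∃ a y1 y2 : ℤ, u1 = a * v1 + p * y1 + q * y2 ∧
      u2 = a * v2 + r * y1 + s * y2 := by
    intro u1 u2
    obtain ⟨a, y1, y2, h1, h2⟩ := hspan u1 u2
    refine ⟨a, y1 + a * z1, y2 + a * z2, ?_, ?_⟩
    · rw [h1, hz1]; ring
    · rw [h2, hz2]; ring
  obtain ⟨A, hA⟩ : ∃ A, A = v1 * r - v2 * p := ⟨_, rfl⟩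
  obtain ⟨B, hB⟩ : ∃ B, B = v1 * s - v2 * q := ⟨_, rfl⟩
  have hcop : IsCoprime A B := by
    obtain ⟨a, y1, y2, h1, h2⟩ := hspan' (-x6) 1
    refine ⟨y1, y2, ?_⟩
    have h3 : v1 * 1 - v2 * (-x6) = 1 := by rw [hv1, hv2]; ring
    rw [hA, hB, ← h3]
    linear_combination v2 * h1 - v1 * h2
  obtain ⟨δ, hδ⟩ : ∃ δ, δ = p * s - q * r := ⟨_, rfl⟩
  rw [← hδ] at h hδ0
  obtain ⟨x1, x2, x3, σ, k, hk, hσ, hval, hB'⟩ := NT A B δ hcop h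
  -- the word
  obtain ⟨W22, hW22⟩ : ∃ w, w = (-x5) * (-x2) + (1 + (-x5) * 0) * (1 + (-x3) * (-x2)) := ⟨_, rfl⟩
  obtain ⟨W12, hW12⟩ : ∃ w, w = ((-x2) + 0 * (1 + (-x3) * (-x2))) + (-x6) * W22 := ⟨_, rfl⟩
  obtain ⟨W11, hW11⟩ : ∃ w, w = ((1 + 0 * (-x3)) + (-x6) * ((-x5) + (1 + (-x5) * 0) * (-x3))) +
    W12 * (-x1) := ⟨_, rfl⟩
  obtain ⟨W21, hW21⟩ : ∃ w, w = ((-x5) + (1 + (-x5) * 0) * (-x3)) + W22 * (-x1) := ⟨_, rfl⟩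
  have hdW : W11 * W22 - W12 * W21 = 1 := by
    rw [hW11, hW21, hW12, hW22]; ring
  obtain ⟨E11, hE11⟩ : ∃ w, w = p * W22 - q * W21 := ⟨_, rfl⟩
  obtain ⟨E12, hE12⟩ : ∃ w, w = -p * W12 + q * W11 := ⟨_, rfl⟩
  obtain ⟨E21, hE21⟩ : ∃ w, w = r * W22 - s * W21 := ⟨_, rfl⟩
  obtain ⟨E22, hE22⟩ : ∃ w, w = -r * W12 + s * W11 := ⟨_, rfl⟩
  have hdE : E11 * E22 - E12 * E21 = δ := by
    rw [hE11, hE12, hE21, hE22, hδ]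
    linear_combination (p * s - q * r) * hdW
  have hF : v1 * (E21 * v1 + E22 * v2) - v2 * (E11 * v1 + E12 * v2) = σ * δ ^ k := by
    rw [← hval, hE11, hE12, hE21, hE22, hA, hB, hW11, hW21, hW12, hW22, hv1, hv2]
    ring
  obtain ⟨τ, j, hτ, hj⟩ : ∃ τ j : ℤ, τ ^ 2 = 1 ∧ B + x2 * (A + x1 * B) = τ + δ * j := by
    rcases hB' with ⟨m, hm⟩ | ⟨m, hm⟩
    · exact ⟨1, m, by norm_num, by linear_combination hm⟩
    · exact ⟨-1, m, by norm_num, by linear_combination hm⟩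
  obtain ⟨α, hα⟩ : ∃ α, α = (p + x6 * r) * (1 + x2 * x3) +
    (q + x6 * s) * (x3 + x1 * (1 + x2 * x3)) := ⟨_, rfl⟩
  obtain ⟨β, hβ⟩ : ∃ β, β = (p + x6 * r) * x2 + (q + x6 * s) * (1 + x1 * x2) := ⟨_, rfl⟩
  have hdQ : α * (B + x2 * (A + x1 * B)) - β * ((A + x1 * B) + x3 * (B + x2 * (A + x1 * B))) =
      δ := by
    rw [hα, hβ, hA, hB, hδ, hv1, hv2]
    ring
  have htr : E11 + E22 = α + (B + x2 * (A + x1 * B)) := by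
    rw [hE11, hE22, hα, hA, hB, hW11, hW21, hW12, hW22, hv1, hv2]
    ring
  obtain ⟨k', rfl⟩ : ∃ k', k = k' + 1 := ⟨k - 1, by omega⟩
  have hαd : ∃ i, α = δ * i := by
    rw [hval, hj, pow_succ] at hdQ
    refine ⟨τ * (1 + β * σ * δ ^ k' - α * j), ?_⟩
    linear_combination τ * hdQ - α * hτ
  obtain ⟨i, hi⟩ := hαd
  have ht : E11 + E22 = τ + δ * (i + j) := by
    rw [htr, hi, hj]; ring
  have hEW : ∀ Y1 Y2 : ℤ, E11 * (W11 * Y1 + W12 * Y2) + E12 * (W21 * Y1 + W22 * Y2) =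
      p * Y1 + q * Y2 ∧ E21 * (W11 * Y1 + W12 * Y2) + E22 * (W21 * Y1 + W22 * Y2) =
      r * Y1 + s * Y2 := by
    intro Y1 Y2
    rw [hE11, hE12, hE21, hE22]
    constructor
    · linear_combination (p * Y1 + q * Y2) * hdW
    · linear_combination (r * Y1 + s * Y2) * hdW
  have hgen : ∀ u1 u2 : ℤ, ∃ a y1 y2 : ℤ, u1 = a * v1 + E11 * y1 + E12 * y2 ∧
      u2 = a * v2 + E21 * y1 + E22 * y2 := by
    intro u1 u2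
    obtain ⟨a, y1, y2, h1, h2⟩ := hspan' u1 u2
    obtain ⟨f1, f2⟩ := hEW y1 y2
    refine ⟨a, W11 * y1 + W12 * y2, W21 * y1 + W22 * y2, ?_, ?_⟩
    · linear_combination h1 - f1
    · linear_combination h2 - f2
  obtain ⟨w1, w2, y1, y2, hFw, hw1, hw2⟩ :=
    Desc77.descent hδ0 hdE hτ ht (k' + 1) v1 v2 hgen hF
  refine Crit10.crit g (α1 := -x6) (β1 := -x5) (α2 := 0) (β2 := -x3) (α3 := -x2) (β3 := -x1)
    (v1 := w1) (v2 := w2) (z1 := z1 - (W22 * y1 - W12 * y2)) (z2 := z2 - (-W21 * y1 + W11 * y2))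
    he1 hp hq he2 hr hs rfl rfl rfl hW22 hW12 rfl hW11 hW21 ?_ ?_ ?_
  · rw [hz1, hw1, hE11, hE12]; ring
  · rw [hz2, hw2, hE21, hE22]; ring
  · have hneg : w1 * (W21 * (s * w1 - q * w2) + W22 * (-r * w1 + p * w2)) -
        w2 * (W11 * (s * w1 - q * w2) + W12 * (-r * w1 + p * w2)) = -σ := by
      rw [← hFw, hE11, hE12, hE21, hE22]; ring
    rcases hσ with h1 | h1
    · right; rw [hneg, h1]
    · left; rw [hneg, h1]; norm_num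

end Pool.Agent.Lib.MP_efa98f_al.Nd77
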