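import Pool.Agent.Lib.MP_efa98f_al.Three77.Core

/-!
# MP_efa98f_al: the six factors as elements of `U(3,ℤ)` and `U⁻(3,ℤ)`
-/

namespace Pool.Agent.Lib.MP_efa98f_al.Three77

open Matrix

/-- Upper unitriangular element. -/
theorem up_elt (p q r : ℤ) : ∃ u : Matrix.SpecialLinearGroup (Fin 3) ℤ,
    u.1 = !![1, p, q; 0, 1, r; 0, 0, 1] ∧ (∀ i, u i i = 1) ∧ ∀ i j, j < i → u i j = 0 := by
  refine ⟨⟨!![1, p, q; 0, 1, r; 0, 0, 1], ?_⟩, rfl, ?_, ?_⟩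
  · rw [Matrix.det_fin_three]
    simp
  · intro i
    fin_cases i <;> rfl
  · intro i j hij
    fin_cases i <;> fin_cases j <;> first | rfl | (exfalso; revert hij; decide)

/-- Lower unitriangular element. -/
theorem low_elt (p q r : ℤ) : ∃ u : Matrix.SpecialLinearGroup (Fin 3) ℤ,
    u.1 = !![1, 0, 0; p, 1, 0; q, r, 1] ∧ (∀ i, u i i = 1) ∧ ∀ i j, i < j → u i j = 0 := by
  refine ⟨⟨!![1, 0, 0; p, 1, 0; q, r, 1], ?_⟩, rfl, ?_, ?_⟩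
  · rw [Matrix.det_fin_three]
    simp
  · intro i
    fin_cases i <;> rfl
  · intro i j hij
    fin_cases i <;> fin_cases j <;> first | rfl | (exfalso; revert hij; decide)

/-- The factorisation inside the group. -/
theorem six_group {a b c d x y t : ℤ} (h : a * d - b * c = 1) (hx : d ∣ x - c)
    (hN : x ^ 2 + t * x * y + d * y ^ 2 = 1 ∨ x ^ 2 + t * x * y + d * y ^ 2 = -1)
    (g : Matrix.SpecialLinearGroup (Fin 3) ℤ) (hg : g.1 = !![a, b, 0; c, d, 0; 0, 0, 1]) :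
    ∃ u1 l1 u2 l2 u3 l3 : Matrix.SpecialLinearGroup (Fin 3) ℤ,
      ((∀ i, u1 i i = 1) ∧ ∀ i j, j < i → u1 i j = 0) ∧
      ((∀ i, l1 i i = 1) ∧ ∀ i j, i < j → l1 i j = 0) ∧
      ((∀ i, u2 i i = 1) ∧ ∀ i j, j < i → u2 i j = 0) ∧
      ((∀ i, l2 i i = 1) ∧ ∀ i j, i < j → l2 i j = 0) ∧
      ((∀ i, u3 i i = 1) ∧ ∀ i j, j < i → u3 i j = 0) ∧
      ((∀ i, l3 i i = 1) ∧ ∀ i j, i < j → l3 i j = 0) ∧
      u1 * l1 * u2 * l2 * u3 * l3 = g := by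
  obtain ⟨s, hs⟩ := hx
  have hx' : x = c + d * s := by linear_combination hs
  obtain ⟨e, he, hN'⟩ : ∃ e : ℤ, e ^ 2 = 1 ∧ x ^ 2 + t * x * y + d * y ^ 2 = e := by
    rcases hN with h1 | h1
    · exact ⟨1, by norm_num, h1⟩
    · exact ⟨-1, by norm_num, h1⟩
  obtain ⟨k, r1, r2, hk⟩ := six h hx' hN' he
  obtain ⟨u1, e1, p1⟩ := up_elt (k - e * y) (k + e * x) 1
  obtain ⟨l1, f1, q1⟩ := low_elt (t * x + (d + 1) * y) (-(x + y)) (-1)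
  obtain ⟨u2, e2, p2⟩ := up_elt (e * ((t - 1) * x + d * y)) (-e * (x + y)) 1
  obtain ⟨l2, f2, q2⟩ := low_elt (-y) x t
  obtain ⟨u3, e3, p3⟩ := up_elt r1 r2 0
  obtain ⟨l3, f3, q3⟩ := low_elt (-s) (-y) 0
  refine ⟨u1, l1, u2, l2, u3, l3, p1, q1, p2, q2, p3, q3, ?_⟩
  apply Subtype.ext
  show u1.1 * l1.1 * u2.1 * l2.1 * u3.1 * l3.1 = g.1
  rw [e1, f1, e2, f2, e3, f3, hg]
  exact hk

end Pool.Agent.Lib.MP_efa98f_al.Three77
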